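import Pool.Agent.Helper95_PSC.Stmts

set_option autoImplicit false

/-!
# PSC, module HidStmt, analytic part

The decomposition of the tiles into the common parts of cliques, and the translation relations
which come from relations between patterns.
-/

namespace Pool.Agent.Helper51_PSC

open Pool.Agent.Helper40_Pisot MeasureTheory Pool.Agent.PSC

variable {m : ℕ}

/-! ### Translations -/

lemma pr_add (α : Fin (m + 1) → ℝ) (v w : Lat m) : pr α (v + w) = pr α v + pr α w := by
  funext i
  simp only [pr, Pi.add_apply, Int.cast_add, Finset.sum_add_distrib]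
  ring

lemma pr_neg (α : Fin (m + 1) → ℝ) (v : Lat m) : pr α (-v) = -pr α v := by
  funext i
  simp only [pr, Pi.neg_apply, Int.cast_neg, Finset.sum_neg_distrib]
  ring

lemma tr_add (v w : Lat m) (F : Face m) : tr v (tr w F) = tr (v + w) F := by
  unfold tr
  simp only [add_assoc]

lemma tr_zero (F : Face m) : tr 0 F = F := by
  unfold tr
  simp only [zero_add]

lemma trS_add (v w : Lat m) (C : Finset (Face m)) : trS v (trS w C) = trS (v + w) C := by
  unfold trS
  rw [Finset.image_image]
  congr 1
  funext F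
  exact tr_add v w F

lemma trS_zero (C : Finset (Face m)) : trS 0 C = C := by
  unfold trS
  have h : tr (0 : Lat m) = id := by
    funext F
    exact tr_zero F
  rw [h, Finset.image_id]

lemma trS_neg_self (v : Lat m) (C : Finset (Face m)) : trS v (trS (-v) C) = C := by
  rw [trS_add, add_neg_cancel, trS_zero]

/-- the translation property of the tiles -/
def TrTile (σ : Fin (m + 1) → List (Fin (m + 1))) (α : Fin (m + 1) → ℝ)
    (x0 : ℤ → Fin (m + 1)) : Prop :=
  ∀ (v : Lat m) (F : Face m), tile σ α x0 (tr v F) = (fun y => pr α v + y) '' tile σ α x0 F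

section

variable {σ : Fin (m + 1) → List (Fin (m + 1))} {α : Fin (m + 1) → ℝ} {x0 : ℤ → Fin (m + 1)}

lemma mem_tile_tr (htr : TrTile σ α x0) (v : Lat m) (F : Face m) (y : E m) :
    y ∈ tile σ α x0 (tr v F) ↔ y - pr α v ∈ tile σ α x0 F := by
  rw [htr v F]
  constructor
  · rintro ⟨z, hz, rfl⟩
    have h : pr α v + z - pr α v = z := by abel
    show pr α v + z - pr α v ∈ _
    rw [h]
    exact hz
  · intro h
    refine ⟨y - pr α v, h, ?_⟩
    show pr α v + (y - pr α v) = y
    abel

lemma mem_tI (C : Finset (Face m)) (y : E m) :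
    y ∈ tI σ α x0 C ↔ ∀ F ∈ C, y ∈ tile σ α x0 F := by
  unfold tI
  rw [Set.mem_iInter₂]

lemma mem_tI_trS (htr : TrTile σ α x0) (v : Lat m) (C : Finset (Face m)) (y : E m) :
    y ∈ tI σ α x0 (trS v C) ↔ y - pr α v ∈ tI σ α x0 C := by
  rw [mem_tI, mem_tI]
  unfold trS
  constructor
  · intro h F hF
    exact (mem_tile_tr htr v F y).1 (h _ (Finset.mem_image_of_mem _ hF))
  · intro h F hF
    obtain ⟨G, hG, rfl⟩ := Finset.mem_image.1 hF
    exact (mem_tile_tr htr v G y).2 (h G hG)

lemma ind_apply (S : Set (E m)) (y : E m) [Decidable (y ∈ S)] :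
    ind S y = if y ∈ S then 1 else 0 := by
  unfold ind
  rw [Set.indicator_apply]

lemma ind_trS (htr : TrTile σ α x0) (v : Lat m) (C : Finset (Face m)) (y : E m) :
    ind (tI σ α x0 (trS v C)) y = ind (tI σ α x0 C) (y - pr α v) := by
  classical
  rw [ind_apply, ind_apply]
  by_cases h : y ∈ tI σ α x0 (trS v C)
  · rw [if_pos h, if_pos ((mem_tI_trS htr v C y).1 h)]
  · rw [if_neg h, if_neg (fun h' => h ((mem_tI_trS htr v C y).2 h'))]

end

/-! ### The action -/

section

variable (α : Fin (m + 1) → ℝ)

lemma act_zero (g : E m → ℝ) (y : E m) : act α (0 : R m) g y = 0 := by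
  unfold act
  simp

lemma act_add (x x' : R m) (g : E m → ℝ) (y : E m) :
    act α (x + x') g y = act α x g y + act α x' g y := by
  unfold act
  rw [AddMonoidAlgebra.coeff_add]
  refine Finsupp.sum_add_index' ?_ ?_
  · intro v
    simp
  · intro v b c
    push_cast
    ring

lemma act_single (v : Lat m) (c : ℚ) (g : E m → ℝ) (y : E m) :
    act α (AddMonoidAlgebra.single v c : R m) g y = (c : ℝ) * g (y - pr α v) := by
  unfold act
  rw [AddMonoidAlgebra.coeff_single, Finsupp.sum_single_index]
  simp

lemma act_mon (v : Lat m) (g : E m → ℝ) (y : E m) :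
    act α (mon v : R m) g y = g (y - pr α v) := by
  unfold mon
  rw [act_single]
  simp

lemma act_sum {P : Type} (s : Finset P) (x : P → R m) (g : E m → ℝ) (y : E m) :
    act α (∑ p ∈ s, x p) g y = ∑ p ∈ s, act α (x p) g y := by
  classical
  induction s using Finset.induction_on with
  | empty => simp [act_zero]
  | insert p s hp ih => rw [Finset.sum_insert hp, Finset.sum_insert hp, act_add, ih]

lemma act_fun_add (x : R m) (g g' : E m → ℝ) (y : E m) :
    act α x (fun z => g z + g' z) y = act α x g y + act α x g' y := by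
  unfold act
  rw [← Finsupp.sum_add]
  refine Finsupp.sum_congr fun v _ => ?_
  ring

lemma act_fun_zero (x : R m) (y : E m) : act α x (fun _ => 0) y = 0 := by
  unfold act
  simp [Finsupp.sum]

lemma act_fun_sum {T : Type} (s : Finset T) (x : R m) (g : T → E m → ℝ) (y : E m) :
    act α x (fun z => ∑ τ ∈ s, g τ z) y = ∑ τ ∈ s, act α x (g τ) y := by
  classical
  induction s using Finset.induction_on with
  | empty => simp [act_fun_zero]
  | insert τ s hτ ih =>
    simp only [Finset.sum_insert hτ]
    rw [act_fun_add, ih]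

lemma act_mul (x x' : R m) (g : E m → ℝ) (y : E m) :
    act α (x * x') g y = act α x (act α x' g) y := by
  induction x using AddMonoidAlgebra.induction_linear with
  | zero => rw [zero_mul, act_zero, act_zero]
  | add a b ha hb => rw [add_mul, act_add, act_add, ha, hb]
  | single v c =>
    induction x' using AddMonoidAlgebra.induction_linear with
    | zero =>
      rw [mul_zero, act_zero, act_single, act_zero, mul_zero]
    | add a b ha hb =>
      rw [mul_add, act_add, ha, hb, act_single, act_single, act_single, act_add]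
      ring
    | single w e =>
      rw [AddMonoidAlgebra.single_mul_single, act_single, act_single, act_single, pr_add]
      have h : y - (pr α v + pr α w) = y - pr α v - pr α w := by abel
      rw [h]
      push_cast
      ring

/-- almost everywhere equal functions -/
lemma act_congr_ae (x : R m) {g g' : E m → ℝ}
    (h : ∀ᵐ y ∂(volume : Measure (E m)), g y = g' y) :
    ∀ᵐ y ∂(volume : Measure (E m)), act α x g y = act α x g' y := by
  have h1 : ∀ᵐ y ∂(volume : Measure (E m)), ∀ v ∈ (x.coeff.support : Set (Lat m)),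
      g (y - pr α v) = g' (y - pr α v) := by
    rw [ae_ball_iff (Finset.countable_toSet _)]
    intro v _
    exact (measurePreserving_sub_right (volume : Measure (E m)) (pr α v)).quasiMeasurePreserving.ae h
  filter_upwards [h1] with y hy
  unfold act
  refine Finsupp.sum_congr fun v hv => ?_
  rw [hy v hv]

end

/-! ### Decomposition into cliques -/

section

variable {σ : Fin (m + 1) → List (Fin (m + 1))} {α l : Fin (m + 1) → ℝ} {x0 : ℤ → Fin (m + 1)}

/-- a tile is the disjoint union of the common parts of its cliques -/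
theorem dec {k : ℕ} (t : ℝ)
    (hC : ∀ᵐ y ∂(volume : Measure (E m)), ∃ C : Finset (Face m), Clique σ α l x0 k C ∧
      ∀ F, F ∈ C ↔ (Alive l t F ∧ y ∈ tile σ α x0 F))
    {F : Face m} (hF : Alive l t F) (S : Finset (Finset (Face m)))
    (hS : ∀ C, C ∈ S ↔ Clique σ α l x0 k C ∧ AliveS l t C ∧ F ∈ C) :
    ∀ᵐ y ∂(volume : Measure (E m)),
      ind (tile σ α x0 F) y = ∑ C ∈ S, ind (tI σ α x0 C) y := by
  classical
  filter_upwards [hC] with y hy
  obtain ⟨C, hCl, hmem⟩ := hy
  rw [ind_apply]
  have hsub : ∀ C' ∈ S, y ∈ tI σ α x0 C' → C' = C := by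
    intro C' hC' hy'
    obtain ⟨h1, h2, h3⟩ := (hS C').1 hC'
    refine Finset.eq_of_subset_of_card_le ?_ ?_
    · intro G hG
      exact (hmem G).2 ⟨h2 G hG, (mem_tI C' y).1 hy' G hG⟩
    · rw [hCl.1, h1.1]
  by_cases h : y ∈ tile σ α x0 F
  · rw [if_pos h]
    have hFC : F ∈ C := (hmem F).2 ⟨hF, h⟩
    have hCS : C ∈ S := (hS C).2 ⟨hCl, fun G hG => ((hmem G).1 hG).1, hFC⟩
    rw [Finset.sum_eq_single C]
    · rw [ind_apply, if_pos]
      exact (mem_tI C y).2 fun G hG => ((hmem G).1 hG).2
    · intro C' hC' hne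
      rw [ind_apply, if_neg]
      intro h'
      exact hne (hsub C' hC' h')
    · intro h'
      exact absurd hCS h'
  · rw [if_neg h]
    symm
    refine Finset.sum_eq_zero fun C' hC' => ?_
    rw [ind_apply, if_neg]
    intro h'
    exact h ((mem_tI C' y).1 h' F ((hS C').1 hC').2.2)

/-- relations between patterns give translation relations between the tiles -/
theorem relOf (htr : TrTile σ α x0) {P : Type} [Fintype P]
    (bas : Finset (Face m) → Lat m) (nrm : Finset (Face m) → Finset (Face m))
    (c : P → Fin (m + 1)) (S : P → Finset (Finset (Face m)))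
    (hbn : ∀ p, ∀ C ∈ S p, trS (bas C) (nrm C) = C)
    (hS : ∀ p, ∀ᵐ z ∂(volume : Measure (E m)),
      ind (tile σ α x0 ((0 : Lat m), c p)) z = ∑ C ∈ S p, ind (tI σ α x0 C) z)
    (y : P → R m)
    (hy : ∀ τ : Finset (Face m),
      ∑ p, y p * (∑ C ∈ S p, if nrm C = τ then mon (bas C) else 0) = 0) :
    Rel σ α x0 (fun a => ∑ p, if c p = a then y p else 0) := by
  classical
  set T : Finset (Finset (Face m)) := Finset.univ.biUnion fun p => (S p).image nrm with hT
  have h1 : ∀ p, ∀ z, ∑ C ∈ S p, ind (tI σ α x0 C) z =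
      ∑ τ ∈ T, act α (∑ C ∈ S p, if nrm C = τ then mon (bas C) else 0)
        (ind (tI σ α x0 τ)) z := by
    intro p z
    have h2 : ∀ τ ∈ T, act α (∑ C ∈ S p, if nrm C = τ then mon (bas C) else 0)
        (ind (tI σ α x0 τ)) z =
        ∑ C ∈ S p, if nrm C = τ then ind (tI σ α x0 τ) (z - pr α (bas C)) else 0 := by
      intro τ _
      rw [act_sum]
      refine Finset.sum_congr rfl fun C _ => ?_
      by_cases h : nrm C = τ
      · rw [if_pos h, if_pos h, act_mon]
      · rw [if_neg h, if_neg h, act_zero]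
    rw [Finset.sum_congr rfl h2, Finset.sum_comm]
    refine Finset.sum_congr rfl fun C hC => ?_
    rw [Finset.sum_ite_eq T (nrm C) (fun τ => ind (tI σ α x0 τ) (z - pr α (bas C))), if_pos]
    · rw [← ind_trS htr, hbn p C hC]
    · exact Finset.mem_biUnion.2 ⟨p, Finset.mem_univ _, Finset.mem_image_of_mem _ hC⟩
  have h3 : ∀ᵐ z ∂(volume : Measure (E m)), ∀ p ∈ (Finset.univ : Finset P),
      act α (y p) (ind (tile σ α x0 ((0 : Lat m), c p))) z =
        act α (y p) (fun z => ∑ C ∈ S p, ind (tI σ α x0 C) z) z := by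
    have h4 : ∀ᵐ z ∂(volume : Measure (E m)), ∀ p ∈ ((Finset.univ : Finset P) : Set P),
        act α (y p) (ind (tile σ α x0 ((0 : Lat m), c p))) z =
          act α (y p) (fun z => ∑ C ∈ S p, ind (tI σ α x0 C) z) z := by
      rw [ae_ball_iff (Finset.countable_toSet _)]
      intro p _
      exact act_congr_ae α (y p) (hS p)
    filter_upwards [h4] with z hz p hp
    exact hz p (Finset.mem_coe.2 hp)
  unfold Pool.Agent.PSC.Rel
  filter_upwards [h3] with z hz
  have h5 : ∑ a, act α (∑ p, if c p = a then y p else 0)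
      (ind (tile σ α x0 ((0 : Lat m), a))) z =
      ∑ p, act α (y p) (ind (tile σ α x0 ((0 : Lat m), c p))) z := by
    have h6 : ∀ a, act α (∑ p, if c p = a then y p else 0)
        (ind (tile σ α x0 ((0 : Lat m), a))) z =
        ∑ p, if c p = a then act α (y p) (ind (tile σ α x0 ((0 : Lat m), a))) z else 0 := by
      intro a
      rw [act_sum]
      refine Finset.sum_congr rfl fun p _ => ?_
      by_cases h : c p = a
      · rw [if_pos h, if_pos h]
      · rw [if_neg h, if_neg h, act_zero]
    simp only [h6]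
    rw [Finset.sum_comm]
    refine Finset.sum_congr rfl fun p _ => ?_
    rw [Finset.sum_ite_eq Finset.univ (c p)
      (fun a => act α (y p) (ind (tile σ α x0 ((0 : Lat m), a))) z), if_pos (Finset.mem_univ _)]
  rw [h5, Finset.sum_congr rfl hz]
  have h7 : ∀ p, act α (y p) (fun z => ∑ C ∈ S p, ind (tI σ α x0 C) z) z =
      ∑ τ ∈ T, act α (y p * (∑ C ∈ S p, if nrm C = τ then mon (bas C) else 0))
        (ind (tI σ α x0 τ)) z := by
    intro p
    have h8 : (fun z => ∑ C ∈ S p, ind (tI σ α x0 C) z) = fun z =>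
        ∑ τ ∈ T, act α (∑ C ∈ S p, if nrm C = τ then mon (bas C) else 0)
          (ind (tI σ α x0 τ)) z := by
      funext z
      exact h1 p z
    rw [h8, act_fun_sum]
    refine Finset.sum_congr rfl fun τ _ => ?_
    rw [act_mul]
  simp only [h7]
  rw [Finset.sum_comm]
  refine Finset.sum_eq_zero fun τ _ => ?_
  rw [← act_sum, hy τ, act_zero]

end

end Pool.Agent.Helper51_PSC
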