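import Pool.Agent.Helper98_PSC.HidDefs
import Pool.Agent.Helper51_PSC.HidA

set_option autoImplicit false

/-!
# PSC, module HidStmt: the analytic statement `RelOf`
-/

namespace Pool.Agent.Helper51_PSC

open Pool.Agent.Helper40_Pisot MeasureTheory Pool.Agent.PSC Pool.Agent.Helper98_PSC

theorem rel_of (hClique : CliqueStmt) (hTile : TileStmt)
    (m : ℕ) (σ : Fin (m + 1) → List (Fin (m + 1))) (M : Matrix (Fin (m + 1)) (Fin (m + 1)) ℤ)
    (r : ℝ) (α l : Fin (m + 1) → ℝ) (a0 : Fin (m + 1)) (x0 : ℤ → Fin (m + 1))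
    (hD : Dat σ M r α l a0 x0) (k : ℕ) (hk : 1 ≤ k) (hM : Mult σ α l x0 k) :
    RelOf m σ α l x0 k := by
  obtain ⟨-, hC2, hC3, -⟩ := hClique m σ M r α l a0 x0 hD k hk hM
  have htr : TrTile σ α x0 := (hTile m σ M r α l a0 x0 hD).2.1
  intro TS PS hTS hPS y hy
  refine relOf htr bas nrm (fun p : {p // p ∈ PS} => p.1.1) (fun p => p.1.2)
    (fun p C _ => trS_bas_nrm C) ?_ y ?_
  · intro p
    obtain ⟨t, ht, hS⟩ := hPS p.1 p.2
    exact dec t (hC2 t) ht p.1.2 hS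
  · intro τ
    by_cases hτ : τ ∈ TS
    · exact hy τ hτ
    · refine Finset.sum_eq_zero fun p _ => ?_
      rw [Finset.sum_eq_zero, mul_zero]
      intro C hC
      rw [if_neg]
      rintro rfl
      apply hτ
      obtain ⟨t, ht, hS⟩ := hPS p.1 p.2
      have h1 := (hS C).1 hC
      refine (hTS _).2 ⟨hC3 _ _ h1.1, bas_nrm ⟨_, h1.2.2⟩⟩

end Pool.Agent.Helper51_PSC
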